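import Mathlib
import Pool.Agent.H274Z.Modal.Defs
import Pool.Agent.H274Z.Modal.Prim

set_option autoImplicit false

namespace Pool.Agent.Results.MP_400b40_lc.AUndecidableIEP

open Pool.Agent.H274Z.Modal

/-- There is a decidable normal modal logic above GL whose interpolant existence problem is
undecidable. -/
theorem result : ∃ L : Set Formula, IsNormalLogic L ∧ logicGL ⊆ L ∧ DecidableLogic L ∧
    ¬ DecidableIEP L :=
  Pool.Agent.H274Z.Modal.main

end Pool.Agent.Results.MP_400b40_lc.AUndecidableIEP
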